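import Pool.Agent.H.MP_330ad9_al.Defs
import Pool.Agent.H.MP_330ad9_al.Main

/-!
For every Coxeter system, every element `w`, and all `J, K ∈ BP(w)`, both `J ∩ K` and `J ∪ K`
lie in `BP(w)`.
-/

set_option autoImplicit false

namespace Pool.Agent.Results.MP_330ad9_al.BPLattice

open Pool.Agent.H.MP_330ad9_al

/-- For every Coxeter system `(W, S)` (no finiteness or crystallographic assumption), every
`w ∈ W` and all `J, K ⊆ S` giving Billey-Postnikov decompositions of `w`, the sets `J ∩ K` and
`J ∪ K` give Billey-Postnikov decompositions of `w` as well. -/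
theorem result {B W : Type*} [Group W] {M : CoxeterMatrix B} (cs : CoxeterSystem M W) (w : W)
    (J K : Set B) (hJ : J ∈ BP cs w) (hK : K ∈ BP cs w) :
    J ∩ K ∈ BP cs w ∧ J ∪ K ∈ BP cs w :=
  BP_lattice cs w hJ hK

end Pool.Agent.Results.MP_330ad9_al.BPLattice
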